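import Pool.Agent.G18.Final
import Pool.Agent.G18X.Ex

/-!
# Cubic fourfolds of discriminant 18 and K3 surfaces of degree 18

## 1. The theorem

**Cubics.** `Cub`: three `3 × 3` matrices `A_k`, vectors `m_k`, `n_k` and numbers `α`, `β`. The
cubic form in the coordinates `x = (x₀, x₁, x₂)`, `y = (x₃, x₄, x₅)` of `ℂ ^ 6` is `F = α det(x
A_k) + β det(A_k y) + ∑_k (m_k x + n_k y) (x A_k y)`. The cubic fourfold `X : F = 0` contains the
elliptic ruled surface `T : x A_k y = 0, det(x A_k) = det(A_k y) = 0` of degree 6 (the join of
corresponding points of two plane cubics), and these `X` contain a dense open subset of the divisor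
`C_18` of Hassett. `NonDeg`: `α`, `β`, `det(x A_k)`, `det(A_k y)`, `det(A₁ - s A₀)` are not 0.

**The fibration of a cubic.** Let `K = ℂ(s, t)`. The net of the quadrics `x A_k y` gives a map from
`X` to the plane. With `P₁ = A₁ - s A₀`, `P₂ = A₂ - t A₀` and `v# = (v P₁) × (v P₂)` one has `F(v,
v#) = det(v A_k) fib(v)`: the fibre over the generic point `(1 : s : t)` is the closure of the
surface `fib = 0` (`Cub.fib`, a cubic polynomial in three variables over `K`), a del Pezzo surface
of degree 6.

**Norm forms.** Let `M` be a cubic extension of `K`, `z# = N(z)/z`. A cube (`Cube`; a twisted cube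
of Bhargava, Gan and Savin) is given by `α, β ∈ K` and `m, n ∈ M`. The surface `aff(z) = α + Tr(m
z) + Tr(n z#) + β N(z) = 0` in the space `M` is an affine part of a hyperplane section of the
`K`-form of `P^1 × P^1 × P^1` in `P^7` which belongs to `M`, a del Pezzo surface of degree 6, and
all such surfaces with a point of degree 3 are of this form (the generic fibre of `X` has one: in
the blow up of `T` the exceptional divisor over a line of `T` is a multisection of degree 3). To
such a surface belongs an algebra `B` of degree 3 over a quadratic extension `L` of `K` (Blunk): `L
= K(√(D disc M))`, `D` the hyperdeterminant of the cube, and `Cube.N` is the norm form on the space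
of dimension 9 of the elements of `B` which are fixed by an involution `τ` of `B` over `K` (second
construction of Tits, decomposition `M + M²` of Springer). Over an algebraic closure it is the
determinant of the matrices with diagonal `x` and the entries `s (a_i + √D b_i)`, `s' (a_i - √D
b_i)` off the diagonal, `s³ = h (g + α √D)`, `s s' = h`. Up to linear maps and factors it depends
only on `L` and `B` (`x ↦ x u` changes the involution), and it determines `B` up to conjugation
over `K`. `Param`: a cubic polynomial `f` over `K` is `aff` of a cube with `D, h ≠ 0` in linear
coordinates. `SameTwist f₁ f₂`: `f₁`, `f₂` have cubes with `N₂(Φ w) = κ N₁(w)` for a bijective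
`K`-linear map `Φ` and `κ ≠ 0` (the fields `M₁` and `M₂` can be different, and the choice of the
cubes does not matter). So this means that the two surfaces have the same algebra `B`; for the
generic fibres of two fibrations over the plane it means: the same double plane (a K3 surface of
degree 2) and, up to the sign, the same class of order 3 in its Brauer group.

**Nets.** `Net`: three elements `ξ_k = (A_k, a_k, a'_k)` of the Lie algebra `g_2 = sl_3 + ℂ³ + ℂ³*`
(the matrices `A_k` modulo scalar matrices). For `(A, a, a') = ξ₀ + c₀ ξ₁ + c₁ ξ₂` let `Net.fib c =
det(v, A v, A² v) + a (v × A v) + a' v - 1`. If `fib(v) = 0`, then the point `(0 : v : v × A v)` of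
the quadric `x₀² = v w` in `P^6` is a zero of the section `(A, a, a')` of the bundle of rank 2 of
(3.6). The zero locus of this section is a form of the flag variety of `P²`, and the surface `fib =
0` is an affine part of its section by the hyperplane `x₀ = 0`.

**Theorem** (`result`). There is a nonzero polynomial `Δ` (`G18.Dl`, the product of three explicit
forms) such that the following holds. Let `X` be as above, `F` irreducible, `Δ(V) ≠ 0`, let `c₀,
c₁` generate `K` over `ℂ`, and suppose that the generic fibre of `X` and the surface of the net `V`
with the parameters `c` have the same norm form: `SameTwist X.fib (V.fib c)`. Then `X` is rational.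
There are `X`, `V`, `c` which satisfy all hypotheses, with a smooth `X`.

The example is in `G18X/Data` and `G18X/Ex`: `F = x₂ (x₁² - x₀ x₂) - y₀ (y₁² - y₀ y₂) + (y₁ - y₂)
(x₀ y₁ + x₁ y₂) + x₀ (x₀ y₀ + x₁ y₁ + x₂ y₂) + x₂ y₀ (x₂ + y₁)`, `c = (s, t - 1)`, and both fields
are `K(τ)`, `t τ³ = s τ + 1`. Here the two cubes differ by a translation `z ↦ z/(1 + w z)`, `w = t
τ`, so that the two surfaces are isomorphic and `Φ = 1`. The general `X` of section 3 is of another
kind: there the triple plane of `M₁` is ruled over a plane cubic, the one of `M₂` is a cubic
surface, so `M₁ ≠ M₂`, and the two surfaces are not isomorphic.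

## 2. The proof (all of it in Lean)

* `Ω = ℂ(X)` is an extension of `K`, and with `(x : y) = (v : v#)` one has `Ω = K(v)`, `fib(v) = 0`
  (`G18/XId`, `XGen`, `XDom`, `XPt`, `XPoint`).
* `D ≠ 0` implies that the polynomial `aff` of a cube is irreducible over every extension of `K`.
  So `K` is relatively closed in `Ω`, and `M₁ ⊗ Ω`, `M₂ ⊗ Ω` are fields (`MulAff`, `RelCl`, `Rel`).
* The link (`Emb`, `Coord`, `Rank`, `PhiE`, `Forms`, `RS`, `Core`, `Core2`, `Core3`, `Link`). Let
  `J_i = M_i + M_i²` with the form `N_i`, and let `W_i` be the cone of all points at which the
  derivatives of `N_i` vanish (over an algebraic closure: the matrices of rank one). The torus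
  `M_i^*` acts on `J_i` by `(x, a, b) ↦ (q# q⁻¹ x, q a, q b)` and multiplies `N_i` by `N(q)`. The
  surface `aff = 0` is the quotient of an open part of `W_i` by this torus: the point `z` belongs
  to the points with `a = 2 u q + B q z`, `b = q z`. `Φ(W_1) = W_2`. There are two independent
  linear forms on `J_1` which vanish on `M_1` and on `Φ⁻¹(M_2)`, since `3 + 3 + 2 ≤ 9`. The torus
  of `M_1` moves a point of `W_1` over `v` to a point `w` at which both are 0, and `Φ(w) ∈ W_2`
  lies over a point `v'` of the second surface with coordinates in `Ω`. The same two linear forms
  give the way back, so `Ω = K(v')`; if this fails, then they show that `Ω` is generated by two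
  elements over `K`. (In geometric terms: a link of sextic del Pezzo surfaces at a point of degree
  3.) No condition of genericity is needed.
* If `Ω = K(v')`, then `Ω = ℂ(c, v')` and `(v' : w')`, `w' = v' × A v'`, is a point of the quadric
  `v w = 0` in `P^5`. Two linear equations with coefficients in `ℂ(v' : w')` determine `(1 : c₀ :
  c₁)`; they are independent if `Δ(V) ≠ 0`. So `Ω` has four generators over `ℂ`: the total space of
  the family of the surfaces of a net is a quadric of dimension 4 (`VGen`, `VBridge`, `VDelta`,
  `Aniso`, `VFour`).
* Therefore `X` is rational (`Final`, `PLN/RatFF`).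

## 3. Consequences for the question Q1 (on paper: this section is not formalised)

Notation as in `TwistedK3`: `A(X) = H^{2,2}(X, ℤ)`, `N ⊇ A_2 = ⟨l₁, l₂⟩` the numerical `K`-group of
the Kuznetsov component of `X`, `A_2^⊥ = A(X)_prim(-1)`. `X ∈ C_18` means that there is `v ∈
A(X)_prim` with `v² = 6` (and `v` is not a long root). `X` contains elliptic ruled surfaces `T` of
degree 6, `T² = 18`, `v = T - 2 h²`, and it has two fibrations over a plane by sextic del Pezzo
surfaces, with fibres `4 h² - T = 2 h² - v` and `2 h² + v`.

(3.1) *Sections.* A surface `T'` has the degree `2 h² T' ∓ v T'` over the plane. If for one of the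
two fibrations this degree is prime to 3 for some `T' ∈ A(X)`, then `X` is rational (Addington,
Hassett, Tschinkel, Várilly-Alvarado, Kontsevich and Tschinkel; for all smooth `X` see (3.8)).
Otherwise `(*)` `A(X) = ⟨h²⟩ + A_0` is an orthogonal sum and `(v, A_0) ⊆ 3 ℤ`. In this case `N =
A_2 + A_0(-1)`, and `X ∈ C_d` if and only if `d = 3 y²` for a primitive `y` in `A_0`.

(3.2) *The K3 surface of degree 2.* Assume `(*)`. `w₀ = l₁ - l₂ + v` is isotropic, `(w₀, N) = 3 ℤ`.
It belongs to a K3 surface `S`, `Pic S = w₀^⊥/w₀`, with `h = l₁ + l₂`, `h² = 2`, and to a class `β`
of order 3 in `Br(S)` (up to the sign). A lift of `β` is a class `b` in `H²(S, ℤ)` such that `β` is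
the class of `b/3`; it can be changed by `Pic S` and `3 H²`. The type `t(b) = b²/2 - (b h)² mod 3`
does not change if `b` is replaced by `b + h`. `β` has a lift `b_X` with `b_X h = 0`, `b_X² ≡ 0 mod
3` and `(b_X, Pic S) ⊆ 3 ℤ`, which is of type 0, and `N = U(3) + Pic S`.

(3.3) *The criterion of Hassett and Kuznetsov on `C_18`.* Let `X` be smooth with `(*)`. Then the
following are equivalent: (i) `N` contains a hyperbolic plane; (ii) `y² ≡ 2 mod 6` for some `y ∈
A_0`; (iii) `D² ≡ 4 mod 6` and `D h ≡ 0 mod 3` for some `D ∈ Pic S`; (iv) `β` has a lift of type 2;
(v) `F(X) ~ S^[2]` for some K3 surface. [(i) - (iv): `N` contains a hyperbolic plane if and only if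
`N ⊗ ℤ_3` does (the divisibility of `w₀` is 3, and the genus of a lattice `U + M` has only one
class), i.e. if and only if the quadratic form `x²/2` on `N/3` is isotropic modulo its radical. The
radical contains `w₀` and `v`; the form is `⟨1⟩ + P`, where `⟨1⟩` is spanned by `l₁` and `P =
-A_0/3`, or where `⟨1⟩` is spanned by `h` and `P` is the image of `{D : D h ≡ 0}`, and it is
isotropic if and only if `P` represents `-1`. (v): by Addington this is `y'² = (3 U² + 1)/2` with
`y' ∈ A_0` and an odd number `U`. We may assume `(v, y) = 0` or `3`; put `c = y²` and `y' = y + (c
- 2)/6 v`, `U = (c + 1)/3`, or `y' = 2 y + (2 c - 7)/3 v`, `U = (4 c - 5)/3`.] If `(*)` does not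
hold, then `w₀` or `l₁ - l₂ - v` has divisibility 1, and (i) and (v) hold as well (same kind of
formulas). So for all smooth `X ∈ C_18` the two criteria are equivalent, they hold if and only if
`3 T'² - (h² T')² mod 9` is different from 0 and 3 for some `T' ∈ A(X)`, and if and only if there
is a section as in (3.1) or a K3 surface as in (3.4). (These equivalences are proved in Lean for
all lattices `A(X)` with such a `v`: part (18) of `main` in `CFL/Main`.)

(3.4) *The K3 surface of degree 18.* Let `D` be as in (iii). There are a multiple `j w₀` and `e =
(3, b_X + D, ·)` in `N` with `e² = 4`, `(e, w₀) = -3`, and `(e, h) = 0` after `h` is replaced by `h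
+ j w₀`. Then `⟨w₀, e, h⟩ = U + ⟨18⟩`, and `f = e + h + w₀` is isotropic of divisibility 1. So
there is a K3 surface `S'` with `Pic S' = f^⊥/f` and `w₀ = (3, L, 3)`, `L² = 18`, `(L, Pic S') ⊆ 3
ℤ`, and `S = M_{S'}(3, L, 3)` with the same `h`, `β` is the obstruction class of this moduli space,
since the kernel of `β` on `T(S)` is `T(X) = T(S')` (Torelli, Mukai, Căldăraru).

(3.5) *The cubic side.* The general `X ∈ C_18` has the form of section 1: the family of all `F ∘
g`, `g ∈ GL_6`, has dimension 55 = 56 - 1 (rank of the derivative, exact computation). The double
cover of the plane given by the generic fibre is a K3 surface `S_X` of degree 2 and the class `B_X`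
of order 3 is unramified on it (Addington, Hassett, Tschinkel, Várilly-Alvarado; Kuznetsov).
`T(S_X)` is stable under the monodromy group `Õ⁺(T(X))`, so it is one of the two overlattices of
`T(X)` of index 3 which belong to the two fibrations, i.e. `S_X = S`; the classes of order 3 on `S`
which are invariant up to the sign are `0` and `±β`, and `B_X ≠ 0` because of `(*)`. So `B_X = ±β`
for the general member, hence by specialisation for all members of a family with smooth generic
fibres and double planes with simple singularities. (Let the K3 surfaces form a smooth family over
a disc. After a finite base change the classes of the members with parameter `≠ 0` extend to a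
class on the family; at the generic point of the special K3 surface it is equal to the class of the
fibration, since the Brauer group of a discrete valuation ring is contained in that of its field of
fractions.) A change of the sign is an exchange of `B` and the opposite algebra and does not change
the norm form.

(3.6) *The side of the K3 surfaces of degree 18.* A net `ξ₀, ξ₁, ξ₂` in the Lie algebra `g_2 = sl_3
+ ℂ³ + ℂ³*` gives by Mukai the general K3 surface `S' = G_2 Gr(2, 7) ∩ {ξ₀ = ξ₁ = ξ₂ = 0}` of
degree 18, and a net of sections of the bundle `C(2)` on the quadric `Q^5 = G_2/P_1` (`C` the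
Cayley bundle of Ottaviani, `c_1 = 3 h`, `c_2 = 3 h²`). The zero locus of a section is a form of
the flag threefold of degree 6, its intersection with the hyperplane `x₀ = 0` is the del Pezzo
surface of section 1. The net has rank 1 on `Z_3 = P_{S'}(U)`, the union of the special lines which
belong to the points of `S'` (degree `c_1² h³ - c_2 h³ = 18 - 6 = 12`), so the total space of the
fibration is the quadric `Q^4` blown up in `Z = Z_3 ∩ {x₀ = 0}`, and `Z` is `S'` blown up in 6
points. With the exceptional curves `E_i` of `Z` the fibre meets `Z` in the curve `2 L - 3 Σ E_i`,
and the two generators of `H^4(Q^4)` with degree 3; so, if `(L, Pic S') ⊆ 3 ℤ`, every surface has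
over the plane a degree divisible by 3, and the class `B_V` of order 3 is not 0. Its K3 surface
`S_V` of degree 2 (the branch curve is the set of all `ξ` in the net whose orthogonal hyperplane is
tangent to the adjoint variety, a sextic) has `T(S_V) ⊗ ℚ = T(S') ⊗ ℚ`; `T(S_V)` is stable under
the monodromy group `Õ⁺(T(S'))`, so it is the overlattice of index 3 of `T(S')` (the discriminant
group is `ℤ/18`), i.e. `S_V = M_{S'}(3, L, 3)` (known: Mukai; Kapustka and Ranestad), and `B_V =
±β` for the obstruction class `β`, by the same argument as in (3.5). (`B_V` is unramified for the
general net: if the fibre over the generic point `x` of a curve is geometrically integral (here: a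
hyperplane section of the zero locus of a section), then the discrete valuation ring of the fibre
splits `B` and is unramified over `O_x` with a regular residue extension, so `B` is unramified at
`x`.) This holds for every smooth `S' = G ∩ P(V^⊥)`, `G = G_2/P_2`, which contains no line and has
`(L, Pic S') ⊆ 3 ℤ`: every such net is in good position in a general frame. [The rank of `V → C(2)`
at `p` is at most 1 if and only if a special line through `p` belongs to `S'`, and it is never 0;
so `Z_3` is smooth, `{(p, ξ) : ξ(p) = 0}` is the blow up of `Q^5` in `Z_3`, and over a general
hyperplane it is smooth; the generic fibre is smooth with `-K = h`, so `D ≠ 0`. The general member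
of the net has a smooth hyperplane section of `G` (Bertini), so no long root vanishes on it, and it
has a cyclic `sl_3`-part in a general frame; `(0 : e₀ : e₁)` is not in `Z`, and is not one of the
points with `v × A v = 0`: so `Δ(V) ≠ 0`. `M = K[A(c)]` is a field, since otherwise one of the
three conic fibrations of the fibre would be defined over `K`, and the fibre would have a point of
a degree dividing 4. The double plane is `w² = D disc(M)`, and its branch curve is `f_V = 0`, the
product `b` of the six long roots restricted to the net (`b = 0` is the dual variety of `G`). `S'`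
is smooth of dimension 2 if and only if `[ξ, l] ≠ 0` for all `ξ ≠ 0` in the net and all `l` in the
cone over `S'`. Let `Γ` be the set of the long root vectors in the centraliser `g^ξ`. `f_V` is
smooth at `ξ = s + n` and at a regular nilpotent `ξ` (`Γ` is a point, the gradient of `b`), it has
a node at a semisimple `ξ` (`Γ` is the conic of the nilpotents of `sl_2`) and a cusp at a
subregular nilpotent `ξ` (`b = z² + L₁ L₂ L₃` on the transversal slice, `Γ` consists of three lines
`l_i + c e_θ`, `L_i = (l_i, ·)`), and `ξ` is not a short or long root vector, since then `Γ`
contains a surface in `P(g^ξ)`, which meets the orthogonal space of the net. So the sextic is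
reduced with nodes and cusps only, and `S_V = M_{S'}(3, L, 3)`, `B_V = ±β` follow by specialisation
from the general net as in (3.5), since the generic fibre is smooth. If `h = 0`, then `D` is a
square and the branch curve is that of a cubic surface (on the side of `X`: the dual of a plane
cubic), which has cusps; in the families of (3.8) it is smooth.]

(3.7) *The Fermat cubic is a member of all families.* Let `X₀` be the Fermat cubic and `x A_k y = a
x_k y_k + b x_{k+1} y_{k+2} + c x_{k+2} y_{k+1}` (indices modulo 3), `a³ + b³ + c³ = 0`, `a b c ≠
0`, `m = n = 0`, `α = β`: this is `X₀` in the form of section 1, and `T` is the join of `p` and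
`φ(p)` for an isomorphism `φ` of the plane Fermat cubics in `x` and in `y` which is not linear. The
derivative of the family of all `F ∘ g` has rank 55 at this point (the parts of bidegree (2, 1) and
(1, 2) consist of three `3 × 3` blocks with the determinants `b³ + c³`, `a³ + c³`, `a³ + b³`). Its
image is contained in the germ of all `F` for which `v` is algebraic, a smooth germ of dimension
55, so it is this germ: all small deformations of `(X₀, v)` have the form of section 1, the generic
fibre is smooth, `M` is a field, and the double plane `w² = D disc(M)` has simple singularities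
(for `X₀` the branch curve is the dual of the plane Fermat cubic), and since the generic fibre of
`X₀` is smooth, (3.5) holds for all these `X`. By a deformation of `φ` to a linear map one gets `v
= h² - P₀ - P₁ - P₂`, `P_k = {y = -ω^k x}`; with another linear map one gets `-v`, so all this
holds for the second fibration, too. `A(X₀)` has rank 21 and discriminant 27 and is generated by
the 405 planes (Degtyarev, Shimada). Now let `L' = ⟨h², v, T'⟩` be a lattice of rank 3 with `(a, r,
b) = (h² T', v T', T'²)`; we may assume that `a ∈ {0, 1}` and `r ∈ {0, 1, 2, 3}`. It has no short
and no long roots if and only if `b ≥ b₀`, where `b₀ = 4, 6, 8` for `a = 0` and `b₀ = 3, 5, 7` for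
`a = 1`, depending on `b mod 6`. For all `(a, r, b mod 6)` with `(a, r) ≠ 0 mod 3`, or `a = 0`, `r
∈ {0, 3}`, `b ≡ 2`, there are `T₀, u₁, .., u₄` in `A(X₀)` such that `T₀` has the numbers `(a, r,
b₀)` (up to the sign of `v`; `b₀ = 9` in the case `(1, 3, 3)`), the `u_i` have the norm 6 and are
orthogonal to each other and to `h²`, `v`, `T₀`, and `h², v, T₀, u₁, .., u₄` generate a primitive
sublattice (exact computation, 20 cases, checked by independent programs). With `T' = T₀ + ∑ n_i
u_i` and the theorem of Lagrange `X₀` belongs to the divisor of `C_18` of all smooth cubic
fourfolds for which `L'` is a primitive sublattice of `A(X)`, for all these `L'` without roots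
except `(1, 3, 3)`. These divisors are irreducible (`h²` is characteristic in `H^4`, so `L'`
determines the quadratic form of its orthogonal complement; Nikulin), so the very general member of
each of them is a small deformation of `(X₀, v)` and has the form of section 1.

(3.8) *The families.* In the case `(a, r) ≠ 0 mod 3` the generic fibre is smooth and has points of
degree 3 and a cycle of degree prime to 3. So it has a rational point and is rational over `K`, and
all smooth members are rational (Kontsevich, Tschinkel); in the case `(1, 3, 3)` there is a plane
`P` with `v (h² - P) = -3` (Voisin), and all smooth members are rational by Hassett. There remain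
the divisors of `C_18` with `(*)` on which the criterion holds: the two series, `c ≡ 2 mod 6`, `c ≥
8`,

* `A_0 = (6, 0; 0, c)`, `Pic S = (2, 0; 0, -c)`, `Pic S' = (18, 6; 6, 2 - c)`, and
* `A_0 = (6, 3; 3, c)`, `Pic S = (2, 1; 1, 2 - c)`, `Pic S' = (18, 3; 3, 2 - c)`.

No class of `Pic S` with `D h = 0` has norm -2 and `D h = 1` implies `D² ≠ 0`, so `S` is the double
cover of the plane branched over a smooth sextic. `Pic S'` takes only values divisible by 6, so
`S'` contains no rational curve of norm -2, and `L` is ample; if `L = D₁ + D₂` with effective
`D_i`, then `D_i² ≥ 0` and `81 ≥ |disc Pic S'|`, but this discriminant is `18 c` or `18 c - 27 ≥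
117` (and `L` is primitive). So `(S', L)` is general in the sense of Brill and Noether, and Mukai's
theorem applies to all these `S'`. By (3.3) - (3.7) the hypotheses of the theorem hold for the very
general member. So all smooth members of the two series are rational, for all `c`, and `F(X) ~
S^[2]` for them. For `c ≥ 20` the very general member is in no `C_d` with `d < 60`, `d ≠ 18`; in
particular it is in none of `C_8, C_14, C_20, C_24, C_26, C_38, C_42`.

(3.9) *Conclusion.* Let `X ∈ C_18` be smooth and `F(X) ~ S^[2]` (equivalently, let the criterion of
Hassett and Kuznetsov hold). Then by (3.3) there is a `T'` with `(a, r) ≠ 0 mod 3`, or `(*)` holds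
and `T'² ≡ 2 mod 6` for some `T' ∈ A_0`. The set of all elements of `A(X)` in `ℚ h² + ℚ v + ℚ T'`
is one of the lattices of (3.8), and `X` is a member of the corresponding divisor. So `X` is
rational. *The part 'if' of Q1 is true for all smooth `X ∈ C_18`.* New are the rational cubic
fourfolds of the two series; they are dense in `C_18`.
-/

set_option autoImplicit false

namespace Pool.Agent.Results.MP_4d0966_ag.C18Partner

open MvPolynomial Pool.Agent.C18

/-- There is a nonzero polynomial `Δ` in the coefficients of a net in the Lie algebra `g_2` with the
following property. A cubic fourfold (in `C_18`) whose generic fibre over the plane has the norm form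
of the surface of a net `V` with `Δ(V) ≠ 0` is rational; a smooth one satisfies the hypotheses. -/
theorem result : ∃ Δ : MvPolynomial Idx ℂ, Δ ≠ 0 ∧
    (∀ (X : Cub ℂ) (V : Net ℂ) (c : Fin 2 → K), X.NonDeg → Irreducible X.F →
      eval V.coord Δ ≠ 0 → IntermediateField.adjoin ℂ (Set.range c) = ⊤ →
      SameTwist X.fib (V.fib c) → P28.Rational X.F) ∧
    ∃ (X : Cub ℂ) (V : Net ℂ) (c : Fin 2 → K), P28.PSmooth X.F ∧ X.NonDeg ∧
      Irreducible X.F ∧ eval V.coord Δ ≠ 0 ∧ IntermediateField.adjoin ℂ (Set.range c) = ⊤ ∧
      SameTwist X.fib (V.fib c) :=
  ⟨_, G18.Dl_ne, final_Dl, G18X.example18⟩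

end Pool.Agent.Results.MP_4d0966_ag.C18Partner
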