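import Pool.Agent.GTEX.SEx

/-!
# Cubic fourfolds of discriminant 24 whose partner K3 surface is untwisted

## 1. The theorem

**Cubics.** `Cub`: two symmetric `2 × 2` matrices `A`, `B` of linear forms in the coordinates `x₀,
p = (x₁, x₂), q = (x₃, x₄), λ = x₅` of `ℂ ^ 6`. The cubic form `F = pᵀ adj(A) p - qᵀ adj(B) q + λ
(det A - det B)` is determined by `λ F = det(λ A + p pᵀ) - det(λ B + q qᵀ)`. These cubic fourfolds
`X` contain a dense open subset of the divisor `C_24` of Hassett. `NonDeg`: with the coefficients
`A₀`, `B₀` of `x₀` in `A`, `B`, `det A₀ ≠ det B₀`, `A₀ ≠ 0`, `B₀ ≠ 0`. Let `K = ℂ(s, t)`.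

**The twisted K3 surface of a cubic.** For symmetric matrices `n, n'` put `g_k = tr(n' B_k) - tr(n
A_k)`, `g' = (g₁, g₂)`, `g'' = (g₃, g₄)`. Then `S_X : g₀ = 0, det n = det n', 4 g₅ det n + g'ᵀ
adj(n) g' = g''ᵀ adj(n') g''` is a K3 surface of degree 6 in a hyperplane of `P^5`, the linear
projection `(n : n') ↦ n + n' = (t, -s; -s, 1)` makes it a threefold cover of the plane, and
`(-det n, n₀₀ n'₀₀)` is a quaternion algebra over its function field, the class of the rulings of
the quadrics `tr(n (λ A + p pᵀ)) = tr(n' (λ B + q qᵀ))` of rank 4. `Cub.Gen X n n'`: `(n : n')` is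
the point of `S_X` over the generic point of the plane, and its coordinates generate the extension
`M` of `K`.

**Type E data.** Let `F` be the space of symmetric `3 × 3` matrices of trace 0, `x · y = tr(x y)`.
`EDat`: `h` (diagonal), `e_i`, `f_j` in `F` (`i, j = 0, 1, 2`), and a bilinear form `Φ` on `⟨h,
e_i⟩ × ⟨h, f_j⟩` with `Φ(h, h) = 0`. It defines the space `W` of dimension 5 of all pairs `(z,
x')`, `z` in `F`, `x'` in `⟨h, e_i⟩`, with `z · y = Φ(x', y)` for all `y` in `⟨h, f_j⟩`. The K3
surface `S_E : z · x' = 0, tr(z² x') + 3 det x' = 0` in `P(W)` consists of the pairs for which `z +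
√3 x'` and `z - √3 x'` have the same characteristic polynomial. The projection to the plane is `x'
= a - x h ↦ c`, `a = e₀ + c₀ e₁ + c₁ e₂`. With the form `kf` on `Λ² F` put `d = kf(h ∧ a, h ∧ a) +
Φ(a, h)²`, and let `t` be the last entry of the vector `tri z h a` of the antisymmetric matrix `z
h a + h z a + h a z - z a h - a z h - a h z`. The quaternion algebra is `(d, cls)`, `cls = d
(x'₀₀ x'₁₁ - x'₀₁²) + t²`. `EDat.Gen E c x z`: `(z, a - x h)` is the point of `S_E` over the
point `c` of the plane, and `x` generates `M` over `K`. `Δ(E) ≠ 0` says that the datum is general.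

**The partner.** `E.swap`: `e` and `f` are exchanged and `Φ` becomes `-Φᵀ`. Its space is the
orthogonal complement of `W` in `F + F` (with the quadratic form `z · x'`). It has its own K3
surface `S''` with a quaternion algebra `(d'', cls'')` over the function field `M''` of `S''`.

**Theorem** (`result`). There is a nonzero polynomial `Δ` such that the following holds. Let `X`
be as above, `F` irreducible, `Δ(E) ≠ 0`, and let `c₀, c₁` generate `K` over `ℂ`. Suppose that
(a) (`SameK3 X E c`) `X` and `(E, c)` have the same twisted K3 surface over the plane: `Cub.Gen X n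
n'` and `EDat.Gen E c x z` in the same cubic extension `M` of `K`, and the algebras `(-det n, n₀₀
n'₀₀)` and `(d, cls)` over `M` are isomorphic;
(b) (`E.swap.Untwisted`) the class of the partner is trivial: `cls'' = y₀² - d'' y₁²` is a norm, at
the point of `S''` over the generic point `(s, t)` of the plane.
Then `X` is rational. There are `X`, `E`, `c` which satisfy all hypotheses, with a smooth `X`.

The example is in `GTEX/SEx`. Put `y = i q`. `A = x₀ (6, 1; 1, 6) + x₁ (-1, -1; -1, -2) + x₂ (2, 0;
0, 0) + y₁ (3, 0; 0, 0) + y₂ (5, 1; 1, 2) + x₅ (-5, -3; -3, -6)`, `B = x₀ (-6, -1; -1, 6) + x₁ (-1,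
1; 1, -2) + x₂ (-2, 0; 0, 0) + y₁ (-1, -1; -1, 0) + y₂ (-5, 1; 1, 0) + x₅ (5, -3; -3, 9)`. `F = pᵀ
adj(A) p + yᵀ adj(B) y + x₅ (det A - det B)` has 41 terms with integer coefficients, the largest is
72. `E`: `h = diag(0, 1, -1)`, `(f_j)₀₀ = 0`, `c = (s, t - 1)`. `M = K(z)`, `z³ = F₀ + F₁ z + F₂ z²`
with polynomials `F_i` of degree `4 - i` in `s`, `t`, and `d = 36 s² - 216 s t + 1296 t² - 432`. The
K3 surface of `E` has the node `(diag(2, -1, -1), 0)`, on which the class of the algebra is odd (so
the algebra of the partner splits), and it contains a line. The pairs `(X, E)` of this kind have 17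
moduli; for the general one `NS(S)` has the discriminant 26, `A(X)` the discriminant 104, no vector
of `A(X)_prim` has the square 2 or 6, and the algebra `(d, cls)` does not split.

## 2. The proof (all of it in Lean)

* `Cub.Gen` and `EDat.Gen` determine the roots of the determinants of two pencils of hermitian
  forms on `L ^ 3` and the algebras of the two pencils modulo their kernels (`GSK`, `GTE/SplitE`).
  The pencil of `X` describes the fibration of `X` by sextic del Pezzo surfaces; the pencil of `E`
  is `x' + tri(z, h, a) / √d`, `(z, x')` in the isotropic line of `W` over `c` (`GTE/Defs`).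
* (a) gives `J` in `GL_8(K)` which maps the `K`-form of `(P^1)^3` of the first pencil to that of
  the second (`GSQ`), and the generic point of `X` can be moved by the torus `L^*` such that its
  image is a generic point `U = p + √d q` of the fibration of `E`, with the same function field `Ω
  = ℂ(X)` (`GSH`, `GTE/AsmG`; two links of del Pezzo surfaces of degree 6 with different `L`).
* The passage to the partner. `p × q = β · alt(h, a, b)`, `b = f₀ + b₀ f₁ + b₁ f₂`, defines a
  point `b` of the second plane, and `Ω = ℂ(c, b, τ)`, where `τ² = -det(K + θ θᵀ)`, `K` the Gram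
  matrix of `kf` on `a ∧ b, b ∧ h, h ∧ a` and `θ = (Φ(a, b), -Φ(h, b), -Φ(a, h))`. This fourfold,
  a double cover of `P² × P²`, is symmetric in `a` and `b` (`GTE/Line2`, `Pass`, `Ind`, `Deg`):
  it carries a second fibration by sextic del Pezzo surfaces, over the second plane, whose
  pencil is that of `E.swap`.
* If the algebra of a pencil over `ℂ(s, t)` is split, the pencil has a common isotropic vector and
  the del Pezzo surface is rational over `ℂ(s, t)` (`GSE2`). So by (b) `Ω` is generated by four
  elements, and `X` is rational (`GTE/AsmE`, `GTE/FinE`). (If the algebra of `X` itself is split,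
  this applies to `X` directly: `X_final` in `GTE/FinX`.)

## 3. Consequences for the question Q1 (on paper: this section is not formalised)

**Result.** *Every smooth cubic fourfold `X ∈ C_24` with `F(X) ~ S^[2]` for a K3 surface `S`, or
more generally with the property of Hassett and Kuznetsov, is rational.* There are no exceptions.
This is the part *if* of Q1 on `C_24`. (The part *only if* is wrong: `TwistedK3`.)

Notation as in `TwistedK3`: `A(X) = H^{2,2}(X, ℤ)`, `N ⊇ A_2 = ⟨l₁, l₂⟩` the numerical `K`-group
of the Kuznetsov component of `X`, `A_2^⊥ = A(X)_prim(-1)`; `X ∈ C_24` means that there is `v ∈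
A(X)_prim` with `v² = 8`. `w₀ = 2 λ + v`, `λ` a root of `A_2`, is isotropic of divisibility 2 or
1. It belongs to a K3 surface `S` of degree 6 (`h ∈ w₀^⊥/w₀`) and a class `β` in `Br(S)` of order
2 or 1, `N = N(S, β)`. A lift of `β` is a class `b` in `H²(S, ℤ)` with image `β`; `b` can be
changed by `Pic S` and `2 H²`. *Types* of lifts: E: `b h` even (then one of `b`, `b + h` has `b²/2`
even); C: `b h` and `b²/2` odd (the lift given by `X`); O: `b h` odd, `b²/2` even.

(3.1) *The criterion of Hassett and Kuznetsov on `C_24`.* For every smooth `X ∈ C_24` the lattice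
`N` contains a hyperbolic plane (necessary for `F(X) ~ S^[2]`) if and only if `3 T² - (h² T)² ≡ 2
mod 4` for some `T ∈ A(X)`, and if and only if `β = 0`, or `β` has a lift of type O, or a lift `e`
of type E with `e² ≡ 0 mod 4` and `e D` odd for some `D ∈ Pic S` (*type E+*). (In Lean for all
lattices `A(X)` with such a `v`: part (24) of `main` in `CFL/Main`.) Now let `L` be the saturation
of `⟨h², v, T⟩` in `A(X)`. After `T ↦ ±T + i h² + j v`, `v ↦ -v` it is `⟨h², v, T⟩` with `(a, r,
m) = (h² T, v T, T²)`, `a ∈ {0, 1}`, `r ∈ {0, …, 4}`, `m ≡ a mod 2`, `m ≥ 4 - a`. If `r` is odd,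
then `β = 0`. If `r = 0` or 4, then `Pic S` is even on `h` and `β` has a lift of type O. If
`r = 2`, then `m ≡ 2 mod 4` for `a = 0` and `m ≡ 1 mod 4` for `a = 1`, `Pic S = ⟨h, D⟩` for the
very general `X` with `D h = 3`, `D² = 2 - m` (`a = 0`) or `D h = 1`, `D² = 1 - m` (`a = 1`), and
`e = b_C + D` (up to `h` and `2 H²`) is a lift of type E+, `e h = 0`, `e D` odd.

(3.2) *The type E side.* For a general subspace `W` of dimension 5 of `F + F` the surface `S_E` is
a smooth K3 surface of degree 6. The parameter `c` is a point of the plane of all lines in the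
quadric `z · x' = 0` of `P(W)` which meet the line `l` of all `(z, μ h)`. All general pairs `(S_E,
l)` of a K3 surface of degree 6 and a line in its quadric occur (rank of the derivative of `E ↦
(S_E, l)` modulo projective equivalence at an explicit datum over `F_p`: 22 = 19 + 3; one of the
three points of `l` on `S_E` is `(z, 0)`, and `SO_3 × SO_3` moves the general point of `S_E` to
such a point). Let `P, P' = z ± √3 x'`. The matrices `e` with `P e = e P'` form a vector bundle of
rank 3 on `S_E`, and the coefficient `a₂` of `P²` in `e eᵀ = a₀ + a₁ P + a₂ P²` is a quadratic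
form on it which is nowhere degenerate. So the conics `a₂ = 0` define a class `β_W` of order 2 or
1, unramified on `S_E`, with the second Stiefel-Whitney class `b` of the bundle as a lift. It is
the class of `(d, cls)`. It is not 0, since it takes both values at the real points of suitable
real `S_E`. `b h` is even: on a hyperplane section `C` of an `S_E` with `P'` diagonal the bundle
is a sum of three line bundles of order 2, and `b h` is their Weil pairing, which is trivial
(exact computation on the curve `C` of genus 4). So `β_W` has type E. The classes of type E on the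
general `S` form one orbit of the monodromy group (the stabiliser of `h` in `O^+_22(2)` acts on
`h^⊥/h` as `Sp_20(2)`), so the space of all `(S, β, l)`, `β` of type E, is irreducible, and the
data dominate it.

(3.3) *The type E side, all lattices.* Let `W_0` be spanned by the pairs `(P, P') = (u uᵀ - n/3, v
vᵀ - n/3)`, `n = |u|² = |v|²`, for `u = (1,1,0), (0,1,-1), (2,1,-2), (1,0,0), (0,2,1)` and `v =
(1,0,-1), (1,1,0), (2,-2,1), (0,1,0), (2,1,0)`. Its surface `S_0` is `8 t₁t₃ + t₁t₄ + 9 t₂t₃ -
t₂t₄ - 8 t₂t₅ - 4 t₃t₅ - t₄t₅ = 0`, `-16 t₁t₂t₃ + 8 t₁t₂t₅ - 5 t₁t₃t₄ - 40 t₁t₃t₅ - 3 t₁t₄t₅ + 35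
t₂t₃t₅ + 9 t₂t₄t₅ + 21 t₃t₄t₅ = 0`. It has exactly five nodes, the coordinate points, and contains
the lines `R₁₂`, `R₁₅`, `R₃₄` through pairs of them; `S''` is smooth. `e` is odd on the exceptional
curves `E_i` (at the nodes `P` and `P'` have eigenspaces of dimension 2), `W ↦ S_W` is ramified
there, and the family has a simultaneous resolution over a neighbourhood of `W_0`, whose period map
is a submersion (exact computation: 50 = 45 + 5). For a datum `E_0` over `W_0` with general `l`,
`Δ(E_0) ≠ 0`. For each `j ≥ 1` there are `a_i` such that `D = R₁₂ + ∑ a_i E_i` (`D h = 1`) or `D =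
R₁₂ + R₁₅ + R₃₄ + ∑ a_i E_i` (`D h = 3`) has `D² = -4 j`, `⟨h, D⟩` is saturated and `e D` is odd
(sums of three squares, or of three triangular numbers). So for *every* lattice of type E+ the very
general `(S, β)` with the general line `l` comes from a datum `E` with `Δ(E) ≠ 0`.

(3.4) *The partner.* `v' = (2, e, e²/4) ∈ N`, `v'² = 0`, `(v', w₀) = -2`, `(v', h) = 0`: the K3
surface `M(v')` with its class is the partner of `(S, β)`; `⟨w₀, v'⟩ + ⟨h⟩ = U(2) + ⟨6⟩`. The
surface `S''` of `E.swap` with its class `β''` is this partner.
(i) `T(S_E)` and `T(S'')` define the same rational Hodge structure up to a scalar. For general `c`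
the double plane `T_c : τ² = -det(K + θ θᵀ)` over the plane of `b` is a del Pezzo surface of degree
2, the blow-up of the del Pezzo surface of degree 6 over `c` in the four points `u = ū = r`, `rᵀ h r
= rᵀ a r = 0` (`u ↦ u × ū` is given by the anticanonical forms which vanish there; the quartic is
smooth by an exact computation). These points form a rational surface. So in the class of the
fourfold `T` in the Grothendieck group of Hodge structures the part with `h^{3,1} ≠ 0` is the
transcendental part of `H²(S_E)(-1)` (`H²` of a sextic del Pezzo surface is given by the three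
conic fibrations and the two contractions; `δ² = d` is a quadric surface), and `T` is symmetric.
(Checked: `S_E` and `S''` have the same number of points over `F_p`, `p ≤ 19`, in all of 350 cases
in which both are smooth over `F_p`.)
(ii) `T(S'')` is a lattice in this space, unique up to a scalar, and stable under the monodromy
group of the irreducible space of all `(S, β, l)`. The stable lattices which are isometric to
`T(S)` up to scaling are `T(S)` and `T(M(v'))`: `U(2) + ⟨6⟩` has just two isotropic elements of
order 2 in its discriminant group, `w₀/2` and `v'/2`. The kernel of `β''` is also stable, so it is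
the kernel of `β`.
(iii) `S''` is not isomorphic to `S`: if `W` contains a pair `(z, x')` for which `P` and `P'` both
have an eigenspace of dimension 2 and the same characteristic polynomial, then `S_E` has one node
and `S''` is smooth (exact computation).
So (b) holds if and only if `v'` has divisibility 1 in `N`, i.e. `e D` is odd for some `D ∈ Pic
S`: this is type E+. Then `N = U + Pic S''` and `Ku(X) = D^b(S'')`.

(3.5) *The cubic side* is (3.5), (3.6) of `TwistedK3`. In particular for every `L` of (3.1) the
very general `X ∈ Z_L` has the form of section 1, and `S_X` with its quaternion algebra is `S` with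
`β` (the Fermat cubic lies on every `Z_L` and is of this form), except possibly if `r = 3` and `L`
contains a plane `T`; then `X ∈ C_14`. The general lines `l` of the quadric of `S` occur.

(3.6) *Proof of the result.* Let `X ∈ C_24` be smooth with the property of Hassett and Kuznetsov,
`T` as in (3.1), `L` the saturation of `⟨h², v, T⟩`, `Z_L` the irreducible divisor of all smooth
cubic fourfolds which contain `L`. If `r` is odd, then the very general `X ∈ Z_L` is in `C_14` or
has the form of section 1 with a split algebra, so it is rational (`X_final` in `GTE/FinX`; also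
Hassett, Hartlieb). If `r = 0` or 4, it is rational by `TwistedK3`. If `r = 2`: the space of all
`(S, β, l)` which belong to `Z_L` is irreducible (the discriminant of `⟨h, D⟩` is odd). By (3.5)
and (3.3) it contains a nonempty open subset of `(S_X, β, l)` and one of `(S_E, β_W, l)` with
`Δ(E) ≠ 0`, so (a) holds, and (b) holds by (3.4); the very general `X ∈ Z_L` is rational. By
Kontsevich and Tschinkel all smooth members of `Z_L` are rational.

(3.7) *New rational cubic fourfolds.* The families of type E+ are `A(X) = ⟨3⟩ + (8, 2; 2, c)`, `c
≡ 2 mod 4`, `c ≥ 6`, and `A(X) = ⟨h², v, T⟩` with `h² T = 1`, `v T = 2`, `T² = m ≡ 1 mod 4`, `m ≥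
5`: infinitely many divisors of `C_24`, so dense in `C_24`. For `c ≥ 18` and `m ≥ 17` the very
general member lies in none of `C_8, C_14, C_18, C_20, C_26, C_38, C_42`; e.g. `m = 17`: `X ∈ C_62 ∩
C_86`.
-/

set_option autoImplicit false

namespace Pool.Agent.Results.MP_4d0966_ag.PartnerK3

open MvPolynomial Pool.Agent.TK Pool.Agent.GTE

/-- There is a nonzero polynomial `Δ` in the coefficients of type E data with the following
property. A cubic fourfold (in `C_24`) which has the same twisted K3 surface over the plane as a
type E datum `E` with `Δ(E) ≠ 0` is rational, if the quaternion algebra of the partner of `E` is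
split. There are a smooth cubic fourfold and data with all these properties. -/
theorem result : ∃ Δ : MvPolynomial EIdx ℂ, Δ ≠ 0 ∧
    (∀ (X : Cub ℂ) (E : EDat ℂ) (c : Fin 2 → K), X.NonDeg → Irreducible X.F →
      eval E.coord Δ ≠ 0 → IntermediateField.adjoin ℂ (Set.range c) = ⊤ →
      SameK3 X E c → E.swap.Untwisted → P28.Rational X.F) ∧
    ∃ (X : Cub ℂ) (E : EDat ℂ) (c : Fin 2 → K), P28.PSmooth X.F ∧ X.NonDeg ∧
      Irreducible X.F ∧ eval E.coord Δ ≠ 0 ∧ IntermediateField.adjoin ℂ (Set.range c) = ⊤ ∧
      SameK3 X E c ∧ E.swap.Untwisted :=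
  ⟨_, GTEX.DE_ne, GTEX.DE_final, GTEX.exampleS⟩

end Pool.Agent.Results.MP_4d0966_ag.PartnerK3
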