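import Pool.Agent.DIX.OddDeg
import Pool.Agent.DIX.EvenG
import Pool.Agent.DIX.ExPSmooth

set_option autoImplicit false

/-!
# MP_4d0966_ag: cubic fourfolds containing a plane: an intrinsic criterion of rationality

Every cubic form in `x0, x1, x2, y0, y1, y2` which vanishes on the plane `x = 0` is
`cubic M = ∑ a_ij(x) y_i y_j + 2 ∑ b_i(x) y_i + c(x)` for a symmetric matrix `M` (`IsCub M`), and
`det M = 0` is the discriminant sextic `D` of the quadric surface fibration defined by the plane.
`A = adj(M)_33` is the determinant of the block `(a_ij)` of linear forms: the plane cubic `A = 0`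
touches `D` everywhere, it defines a theta characteristic of `D` with exactly one section.

`γ = 0` is an irreducible plane curve over which `det M` is a square (`SqMod γ M.det`): the quadrics
over it have two rulings, it is the image of a curve `Γ` on the double covering `S` of the plane
branched along `D` (a K3 surface).  `Γ` restricts to `D`: this changes the theta characteristic.

If `γ` has even degree, the cubic forms `α` such that `α γ A` is a square on `D` (`Cub M γ α`) are the
squares of the sections of the new theta characteristic.  The hypothesis `heven` says that its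
space of sections has dimension different from one, in particular it holds if there is no such
`α`.

If `γ` has odd degree, one gets a point of order two of the Jacobian in place of a theta
characteristic.  The theorem produces a double covering `w ^ 2 = t(s; y)` of `ℙ² × ℙ²`
(`VClass M γ t`), or shows directly that the cubic fourfold is rational; `hodd` asks for a rational
section over the plane of `y`.

The second part of the theorem is an example, `X : 2 x₀² y₂ + x₀ x₂² + x₀ y₁² - x₁² x₂ - 2 x₁² y₀ -
2 x₁ y₂² - x₂ y₀² + 2 x₂ y₁ y₂ = 0` with the conic `γ = x₀ x₂ - x₁²`: `X` is smooth, all hypotheses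
hold, and there is no `α` (`h⁰ = 0`).

Related files: `Pool/Agent/DIX/ExTheta.lean`, `ExPSmooth.lean` (the example),
`Pool/Agent/DIX/Labels.lean` (the lattice `A` of a cubic fourfold with a plane: the criterion of
Galkin and Shinder, the criterion of Hassett and Kuznetsov, and the existence of a class `T` with
`3 T·T - (h·T)²` equal to `2` modulo `4` are equivalent).

## Consequences for the question Q1 (on paper: this section is not formalised)

*The part if of Q1 is true for all smooth cubic fourfolds `X` which contain a plane: if `F(X)` is
birational to `S'^[2]` for a K3 surface `S'`, then `X` is rational.*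

Let `X` be smooth and contain the plane `P`, `A(X) = H^{2,2}(X, ℤ)`, `Q = h² - P` the class of the
quadric surfaces, `d(T) = 3 T² - (h² T)²` for `T ∈ A(X)`, and `m` the degree of `γ`.

(1) *The criteria.* There are equivalent: `F(X) ~ S'^[2]` for some K3 surface `S'`; the criterion
of Hassett and Kuznetsov; `d(T) ≡ 2 mod 4` for some `T ∈ A(X)` (Addington; Addington and Thomas;
the statement on lattices is proved in Lean in `DIX/Labels`). From now on let them hold.

(2) *Sections.* If `T Q` is odd for some `T ∈ A(X)`, then `X` is rational (Hassett; `T` is
algebraic by Voisin, the generic quadric surface is smooth since the blow up of `X` in `P` is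
smooth, it has a point of odd degree, and by Springer a rational point). Otherwise we have `(*)`:
all `T Q` are even.

(3) *The K3 surface.* Assume `(*)` and let the sextic `D` be smooth. Let `S` be the double plane
with the branch curve `D`, `h` the class of the inverse image of a line, and `b ∈ H²(S, ℤ)` such
that `b/2` gives the class of order 2 in `Br(S)` which belongs to the quadric fibration. The
numerical K-group of the Kuznetsov component is `N = {(2 k, k b + Γ, s) : k, s ∈ ℤ, Γ ∈ Pic S}` in
the Mukai lattice of `S` (under `(*)` the class of `b/2` is not 0 in `Br(S)`, so the first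
component is even), it contains `A_2`, and the orthogonal complement of `A_2` is
`A(X)_prim(-1)` (Voisin; Kuznetsov; Addington and Thomas). For the general `X` (`Pic S = ℤ h`) the
class of `b` modulo `h` and `2 H²(S, ℤ)` is unique; for the special `X` this `b` is taken, by
continuity. `b h` is odd and `b² ≡ 2 mod 4` (Kuznetsov). *There is a `Γ ∈ Pic S` with even `Γ b`
and either even `Γ h` and `Γ² ≡ 2 mod 4`, or odd `Γ h` and `Γ² ≡ 0 mod 4`.* Proof: Consider the
quadratic form `x²/2` modulo 2 on `N/2`. Let `E` be `A_2/2` or the plane spanned by `h` and
`(2, b, 0)`. `E` is nonsingular and anisotropic. So the form is different from 0 on the complement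
of `E` if and only if it has zeros outside its radical, and this does not depend on `E`. It is
different from 0 on the complement of `A_2/2`, since `3 T - (h² T) h²` has the norm `3 d(T)`. The
complement of the second plane consists of the `(2 k, k b + Γ, s)` with `k ≡ Γ h` and even `Γ b`.

(4) *Theta characteristics.* For `c ∈ Pic S` let `κ_c = c|_D - (c h/2) h` if `c h` is even, a point
of order 2 of the Jacobian, and `θ_c = c|_D - ((c h - 3)/2) h` if `c h` is odd, a theta
characteristic of `D`. This extends to all `c ∈ H²(S, ℤ)` modulo `h` and 2, and `h⁰(θ_c) ≡ c²/2 mod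
2` (van Geemen; Ingalls, Obus, Ozman and Viray). Let `θ_X` be the theta characteristic of the
contact cubic `A = 0`. Then `θ_X = θ_b`, since `θ_b` is fixed by the stabiliser of `θ_X` in the
monodromy group `Sp(20, 𝔽₂)`, and this stabiliser, the group generated by the transvections in the
`v` with `q(v) = 1`, fixes no other theta characteristic.

(5) *The curve.* Let `Γ` be as in (3). It is not a multiple of `h`. We replace it by the general
member of `|Γ + 2 n h|`, `n` large (the properties in (3) remain true). So `Γ` is a smooth curve,
different from its conjugate; its image in the plane is an irreducible curve `γ = 0` of degree `m =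
Γ h`, over which `S` splits, i.e. `SqMod γ M.det`, and `γ = 0` has the divisor `2 Γ|_D` on `D`.

(6) *Even degree.* For a cubic form `α` the form `α γ A` is a nonzero square on `D` if and only if
`α` has the divisor `2 F` on `D` with `F ∈ |θ_X + κ_Γ|`, and `F` determines `α` up to a factor. So
`heven` says that `h⁰(θ_X + κ_Γ) ≠ 1`. But `θ_X + κ_Γ = θ_{b + Γ}` is even, since `(b + Γ)²/2 ≡
b²/2 + Γ²/2 ≡ 0`. So `X` is rational.

(7) *Odd degree.* By the theorem we may assume that there is a partner `V : w² = t(s; y)`. It is
smooth, because `D` is smooth. The lines in the quadric surfaces of `V` over the plane of `s` form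
a bundle of projective lines `R → S`. They are mapped isomorphically onto lines of the plane of
`y`, the tangents of the conics `t(s; .) = 0`; let `L` be the inverse image on `R` of `O(1)` of the
dual plane. Then `L³ = 0`, `L² h = 8` (`adj(vA)` has degree 4), `L h² = 4`, `h³ = 0`. Let `K =
K_{R/S}`. `L + K = x h`, and `0 = K² h = 8 - 8 x`, so `x = 1` and `K² = p_1(R)` is `K² L/2 = -6`
points. Let `r ∈ H²(S, ℤ)` give `w_2(R)`; then `r² ≡ p_1(R) ≡ 2 mod 4`. By Tsen `R` has a section
`σ` over the curve `Γ`. The surface swept out by these lines has over the plane of `y` the degree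
`L σ = - K σ + h Γ = σ² + h Γ ≡ (r + h) Γ mod 2`. The point of order 2 which
belongs to the contact curves `adj(vA)_ii` of `D` is `θ_X + Γ|_D - ((m + 3)/2) h` (`VClass`), so it
is the one of `b + Γ`. As in (4) `r` is `b + Γ` or `b + Γ + h` modulo 2: the stabiliser of a point
of order 2 fixes no theta characteristic and no other such point, and for the general `V` the
class in `Br(S)` is not 0 (van Geemen); this passes to our `V` by continuity. The squares of `b + Γ`
and `b + Γ + h` are 2 and 0 modulo 4, so `r ≡ b + Γ`, and `(r + h) Γ ≡ b Γ + Γ² + h Γ` is odd. By
Springer `t` has a section over the plane of `y`, and `X` is rational.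

(8) *The sextic is smooth for the very general member.* Let `(*)` hold and `rk A(X) = 3` (it is at
least 3, because of (1) and `d(x P) = 8 x²`). `D` is smooth at the points at which the quadric has
rank 3, since `X` is smooth, and rank 1 does not occur. If the rank is 2 at some point, then `X`
contains a plane `P'` with `P P' = -1`, and `L = ⟨h², P, P'⟩` has discriminant 16. Then `L = A(X)`,
since each of the three lattices which contain `L` with index 2 contains an element with label 2
(`(P + P')/2`, `(h² + P)/2` or `(h² + P')/2`), and `C_2` does not meet the smooth cubics. But `d(x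
P + y P') = 8 (x² - x y + y²)`, in contradiction to (1). So `D` is smooth and `X` is rational.

(9) *All members.* Let `(*)` hold, `d(T) ≡ 2 mod 4`, and let `L` be the saturation of `⟨h², P, T⟩`
in `A(X)`. The smooth cubic fourfolds with such a primitive sublattice form an irreducible divisor
of `C_8` (Nikulin: the orthogonal complement of `L` in `H⁴` is even, contains `U`, its discriminant
form is determined by `L` and its rank is `20 ≥ 2 + 3`). `(*)` and (1) are properties of `L`. So
the very general member is rational by (8), and all smooth members are rational (Kontsevich and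
Tschinkel), in particular `X`.

(10) *New cubic fourfolds.* The divisors of `C_8` with `(*)` and (1) are the three series `A(X) =
⟨h², P, T⟩`, `h² T = 0`, `P T = r ∈ {0, 2, 4}`, `T² = n ≡ 2 mod 4`, with discriminant `8 n - 3 r²`
and the labels `8 x² + 6 r x z + 3 n z²`. For `n ≥ 22` the very general member is in no `C_d` with
`d ≤ 48`, `d ≠ 8`, in particular in none of `C_14, C_18, C_20, C_24, C_26, C_38, C_42`. Known
before: trivial class in `Br(S)` (Hassett) and the intersections of `C_8` with `C_14` (Auel,
Bernardara, Bolognesi and Várilly-Alvarado), `C_26`, `C_38` and `C_42`.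
-/

namespace Pool.Agent.Results.MP_4d0966_ag.PlaneTheta

open Pool.Agent.PLN Pool.Agent.DIX MvPolynomial Matrix

/-- `α` is a cubic form such that `α γ adj(M)_33` is a nonzero square in the function field of the
curve `det M = 0`. -/
def Cub (M : Matrix (Fin 4) (Fin 4) S3) (γ α : S3) : Prop :=
  α.IsHomogeneous 3 ∧ SqMod M.det (α * (γ * M.adjugate 3 3))

/-- **The theorem** (see above), and a smooth cubic fourfold to which it applies. -/
theorem result :
    (∀ (M : Matrix (Fin 4) (Fin 4) S3) (γ : S3) (m : ℕ), IsCub M → SmoothCurve M.det →
      γ.IsHomogeneous m → Irreducible γ → SqMod γ M.det →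
      (Even m → ¬ ∃ α₀, Cub M γ α₀ ∧ ∀ α, Cub M γ α → ∃ c : ℂ, α = C c * α₀) →
      (Odd m → (∃ t, VClass M γ t) → ∃ t, VClass M γ t ∧ HasSection t) →
      Pool.Agent.P28.Rational (cubic M)) ∧
    ∃ (M : Matrix (Fin 4) (Fin 4) S3) (γ : S3), Pool.Agent.P28.PSmooth (cubic M) ∧ IsCub M ∧
      SmoothCurve M.det ∧ γ.IsHomogeneous 2 ∧ Irreducible γ ∧ SqMod γ M.det ∧
      ¬ ∃ α₀, Cub M γ α₀ ∧ ∀ α, Cub M γ α → ∃ c : ℂ, α = C c * α₀ := by
  constructor
  · intro M γ m hM hS hγ hi hsplit heven hodd
    have hE := locEven_gam' (det_cub hM) hS hγ hi hsplit
    rcases Nat.even_or_odd m with hm | hm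
    · obtain ⟨k, hk⟩ := hm
      have hγ' : γ.IsHomogeneous (2 * k) := by rwa [two_mul, ← hk]
      refine even_rational hM hS hγ' hi hsplit hE 3 (adj33 hM hS) ?_
      rintro ⟨α₀, h1, h2, h3⟩
      exact heven ⟨k, hk⟩ ⟨α₀, ⟨h1, h2⟩, fun α hα => h3 α hα.1 hα.2⟩
    · obtain ⟨k, hk⟩ := hm
      have hγ' : γ.IsHomogeneous (2 * k + 1) := by rwa [← hk]
      exact odd_rational hM hS hγ' hi hsplit hE (hodd ⟨k, hk⟩)
  · refine ⟨exM, exG, exM_psmooth, exM_cub, exM_smooth, exG_hom, exG_irr, ex_split, ?_⟩
    rintro ⟨α₀, h, -⟩
    exact exTheta_none h.1 h.2

end Pool.Agent.Results.MP_4d0966_ag.PlaneTheta
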