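import Pool.Agent.GSK.Same
import Pool.Agent.GSV.Ex4

/-!
# Cubic fourfolds of discriminant 24 and the conjecture of Galkin and Shinder

## 1. The theorem

**Cubics.** `Cub`: two symmetric `2 × 2` matrices `A`, `B` of linear forms in the coordinates `x₀,
p = (x₁, x₂), q = (x₃, x₄), λ = x₅` of `ℂ ^ 6`. The cubic form `F = pᵀ adj(A) p - qᵀ adj(B) q + λ
(det A - det B)` is determined by `λ F = det(λ A + p pᵀ) - det(λ B + q qᵀ)`. These cubic fourfolds
`X` contain a dense open subset of the divisor `C_24` of Hassett. `NonDeg`: with the coefficients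
`A₀`, `B₀` of `x₀` in `A`, `B`, `det A₀ ≠ det B₀`, `A₀ ≠ 0`, `B₀ ≠ 0`. Let `K = ℂ(s, t)`.

**The twisted K3 surface of a cubic.** For symmetric matrices `n, n'` put `g_k = tr(n' B_k) - tr(n
A_k)`, `g' = (g₁, g₂)`, `g'' = (g₃, g₄)`. Then `S_X : g₀ = 0, det n = det n', 4 g₅ det n + g'ᵀ
adj(n) g' = g''ᵀ adj(n') g''` is a K3 surface of degree 6 in a hyperplane of `P^5`, the linear
projection `(n : n') ↦ n + n' = (t, -s; -s, 1)` makes it a threefold cover of the plane, and
`(-det n, n₀₀ n'₀₀)` is a quaternion algebra over its function field, the class of the rulings of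
the quadrics `tr(n (λ A + p pᵀ)) = tr(n' (λ B + q qᵀ))` of rank 4. `Cub.Gen X n n'`: `(n : n')` is
the point of `S_X` over the generic point of the plane, and its coordinates generate the extension
`M` of `K`.

**The twisted K3 surface of a type O datum.** `Dat`: `2 × 2` matrices `B, N, E`, vectors `γ, δ` and
an alternating form `τ = ∑ τ_ij v_i ∧ v_j` (all `i`, `j`) on `ℂ ^ 6 = {(S, T, x, y)}`. This is the
datum of a general K3 surface of genus 13 in coordinates, see (3.7). For `c = (c₀, c₁)` put `Z = E
- c₀ - c₁ N`, `χ = δ - c₁ γ`, `mix B Z` = the mixed determinant, `d = (mix B Z)² - 4 det B det Z`.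
There are an operator `K_c` on `K ^ 6` with `K_c ^ 2 = d` and an alternating form `τ_c`. Let `w` be
the symplectic form `S · T' - S' · T + x y' - x' y`, and `om = m w - τ_c`. The form `om(v, K_c v)`
is a hermitian form for `K(√d)`, and it is degenerate if and only if `G(1, c₀, c₁, m, z) = 0` for a
certain cubic form `G` and `z = c₀² + tr(N) c₀ c₁ - c₁ m`. So all `(c, m)` for which `om(v, K_c v)`
is degenerate form a surface `S_D`, for a general datum a K3 surface of degree 6 in the quadric `z
s₀ = c₀² + tr(N) c₀ c₁ - c₁ m` in `P^4`, and a threefold cover of the plane of all `c`. Let `u_i =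
det(B) e_i + ln(adj B, χ)(e_i) e_x`; then `⟨u₀, …, u₃⟩` is invariant under `K_c`. Let `R = (om(u_i,
u_(2+j)))`, `P = 2 det(B) tr(Z R) - mix tr(B R)`, `Q = tr(B R)² - 4 det(B) (det R - om(u₀, u₁)
om(u₂, u₃))`. The quaternion algebra `(d, P² - d Q)` over the function field of `S_D` is the
algebra of the hermitian form on `U` modulo its kernel. `Dat.Gen D c m`: for two functions `c` in
`K` the form `om(v, K_c v)` is degenerate over `M`, and `m` generates `M`. The condition `Δ(D) ≠ 0`
says that the datum is general. (`GSN/Ex.lean`: a datum with small integers which satisfies the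
main part of the condition.)

**Theorem** (`result`). There is a nonzero polynomial `Δ` in the coefficients of `D` with the
following two properties.
(i) Let `X` be as above with `F` irreducible, let `Δ(D) ≠ 0`, and let `c₀, c₁` generate `K` over
`ℂ`. Suppose that `X` and `(D, c)` have the same twisted K3 surface over the plane
(`SameTwistedK3`): `Cub.Gen X n n'` and `Dat.Gen D c m` in the same cubic extension `M` of `K`, and
the quaternion algebras `(-det n, n₀₀ n'₀₀)` and `(d, P² - d Q)` over `M` are isomorphic. Then `X`
is rational.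
(ii) There are a smooth `X`, a datum `D` and `c` with all the properties of (i). (`GSV/Q4.lean`,
`GSV/Ex4.lean`: `X` and `D` over `ℤ`; the isomorphism follows from explicit identities.)

## 2. The proof (all of it in Lean)

* *The pencils.* The net of quadrics `m = p pᵀ + q qᵀ + λ (A + B)` fibres `X` over the plane of all
  symmetric matrices `m = (1, s; s, t)`; the generic fibre is a del Pezzo surface of degree 6 over
  `K` with a point of degree 2, and it is described by a pencil of two hermitian forms on `L ^ 3`,
  `L = K(√(t - s ^ 2))` (`Cub.pencil`). A type O datum has the pencil `w(v, K_c v)`, `τ_c(v, K_c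
  v)`. `Cub.Gen` and `Dat.Gen` determine a root `m` of the determinant of the pencil in `M` and an
  eigenvector `v`, and with `e = p'(m) Q₀(v)` (`p` the minimal polynomial of `m`) the algebra `(d, e
  N(e))` of the pencil is `(d, -κ)` for a hermitian `2 × 2` minor `κ` of `m Q₀ - Q₁`, that is the
  algebra of the K3 surface (`GSK/HermK`, `Model`, `XK3`, `CubNe`, `DK3`, `DDel`).
* Let `W_X` and `W_D` be the cones over the `K`-forms of `(P^1)^3` in `P^7` which belong to the two
  pencils: pairs `(ξ, u)`, `ξ` in `L`, `u` in `L ^ 3`, with `B₀(u) = B₁(u) = 0` and `(B₀ ū) × (B₁ ū)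
  = ξ̄ u` (for `D` up to a shear `ξ ↦ ξ + l(u)`). The isomorphism of the algebras gives `J` in
  `GL_8(K)` with `J W_X ⊆ W_D` (`GSQ`: common slot of the two quaternion algebras, explicit change
  of bases in the three factors).
* The point of `W_X` over the generic point of `X` (`GSX`) can be moved by the torus `L^*` to a
  point whose image under `J` is again in general position with respect to `D`, and the field
  which it generates does not change (`GSH`, two moves; this is the link of two del Pezzo surfaces
  of degree 6 with the same `M` and the same quaternion algebra, but different `L`).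
* For a type O datum (`GSR`, `GSD`) the lines `⟨v, K_c v⟩` on which `w(v, K_c v)` and `τ_c(v, K_c
  v)` vanish fill `P^5`; a cubic form `f₃`, linear in `x`, vanishes at the two eigenvectors of
  `K_c` on the line and in a third point, and `c` is a rational function of the third point. So
  the function field is that of the rational fourfold `f₃ = 0`. `GSN`: the third point is general,
  and `Δ`.
* So `ℂ(X)` is generated by four elements, and `X` is rational (`GSF`).

Part (ii) is the example of `GSK4`. (For explicit smooth cubic fourfolds over `ℤ` the matrix `J`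
is written down in `GSK2`, `GSK4`, `GSK7`. For them `F(X) ~ S^[2]`, labels 24, 30, 78, 222, …)

## 3. Consequences for the question Q1 (on paper: this section is not formalised)

**Results.** (A) Let `k` be odd, and let `X` be a smooth cubic fourfold with `A(X) = ⟨3⟩ + ⟨8⟩ +
⟨18 k²⟩` (`h²` generates the first summand), e.g. `k = 1`. Then `X` is rational, but `F(X)` is
birational to no `S^[2]`: the part *only if* of Q1 is wrong. (B) Let `X ∈ C_24` be smooth, `v ∈
A(X)`, `v h² = 0`, `v² = 8`, and let `3 T² - (h² T)² ≡ 2 mod 4` and `v T ≡ 0 mod 4` for some `T ∈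
A(X)`. Then `X` is rational. (Together with `PartnerK3`: a smooth `X ∈ C_24` with the property of
Hassett and Kuznetsov, in particular with `F(X) ~ S^[2]`, is rational.) There are no exceptions.

Notation: `A(X) = H^{2,2}(X, ℤ)`, `N` the numerical `K`-group of the Kuznetsov component of `X`,
`A_2 = ⟨l₁, l₂⟩ ⊆ N`, `A_2^⊥ = A(X)_prim(-1)`. Let `k` be odd, `A_k = ⟨3⟩ + ⟨8⟩ + ⟨18 k²⟩`, `N_k =
A_2 + ⟨-8⟩ + ⟨-18 k²⟩` with basis `l₁, l₂, e, f`.

(3.1) *Existence.* `H^4(X, ℤ)_prim = A_2 + U² + E_8²` contains `⟨8⟩ + ⟨18 k²⟩` primitively in `U²`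
and without glue with `h²`, in one way up to isometries (Nikulin); this lattice has no vector of
norm 2 or 6. By Laza and Looijenga the smooth cubic fourfolds with this lattice form an irreducible
divisor `Z_k` of `C_24`, whose very general member has `A(X) = A_k` (very general: outside
countably many divisors of `Z_k`). The labels of `X` (the `d` with `X ∈ C_d`) are the numbers `24
x² + 54 k² y²` with coprime `x`, `y`, so `X` is in none of `C_8, C_14, C_18, C_20, C_26, C_38,
C_42`.

(3.2) *`F(X)` is birational to no `S^[2]`.* `F(X) ~ S^[2]` for some K3 surface `S` if and only if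
there is `w ∈ N` with `w² = 0`, `(w, l₁) = 1` (Addington, Two rationality conjectures for cubic
fourfolds, Theorem 2 and its proof; Markman, Verbitsky). For `N_k` this is `3 U² + 1 = 16 x² + 36
k² y²` with `U` odd. Then `k y` is odd, and for `n = 6 |k y| - 1` one has `3 U² - (4 x)² = n (n +
2)`, `n ≡ 5 mod 12`; a prime divisor `q` of `n` modulo which 3 is not a square divides `n (n +
2)`, hence `n`, to an even order, so the Jacobi symbol `(3/n)` is 1, but `n ≡ 5 mod 12` gives
`-1`. On the other hand `N_k` contains a hyperbolic plane, so the criterion of Hassett and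
Kuznetsov holds. (These two facts are formalised in `GSL/NoW.lean`: `no_w`, `hyperbolic`.)

(3.3) *The twisted K3 surface of `X`.* `w₀ = 2 l₁ + e` is isotropic, `(w₀, N) = 2 ℤ`, and `w₀^⊥/w₀
= ⟨h⟩ + ⟨f⟩`, `h = l₁ + 2 l₂`, `h² = 6`, `f² = -18 k²`. So `X` has a K3 surface `S` of degree 6
with a Brauer class `β` of order 2. `Pic S` represents neither 0 nor -2, so `h` is very ample and
`S` is the intersection of a smooth quadric `Q ⊂ P^4` and a cubic. `β` is given by `b_C = l₂`,
`b_C h = 3`, `b_C² = 2` (*type C*: `(b h, b²/2) ≡ (1, 1) mod 2`). The general member of `C_24` has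
the same with `Pic S = ⟨h⟩`. The type is well defined, since `b ↦ b + h` changes `b²/2` by the
even number `b h + 3`. Conversely `(S, h, b_C)` determines `N ⊇ A_2`, hence `X` (Torelli).

(3.4) *The second description of `β`.* `v' = l₂ + f + m w₀`, `m = (1 - 9 k²)/2`, has `v'² = 0`,
`(v', w₀) = -2`, `(v', h) = 3`: it is a second lift `b_O = b_C + f` of the same class, with `(b h,
b²/2) ≡ (1, 0)` (*type O*). `⟨v', w₀, h + 2 w₀⟩` and `D' = f - 9 k² w₀` generate `N_k`, and they
are the algebraic Mukai lattice of a K3 surface `S'` of genus 13 with `Pic S' = ⟨24⟩ + ⟨-18 k²⟩`: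
`v' = (0, 0, 1)`, `w₀ = (2, L, 6)`, `h + 2 w₀ = (1, 0, -3)`, `L² = 24`. So by the global Torelli
theorem `S = M_{S'}(2, L, 6)` with the same polarisation `h`, and `β` is the obstruction class of
this moduli space: the kernel of `β : T(S) → ℤ/2` is `N_k^⊥` in both cases (Mukai, Caldararu).

(3.5) *The cubic side.* The general `X ∈ C_24` has the form above: the family of all `F ∘ g`, `g ∈
GL_6`, has dimension 55 = 56 - 1 (rank of the derivative, exact computation), and `X` contains
sextic del Pezzo surfaces `T` with one node, `h² T = 6`, `T² = 20`, `3 · 20 - 36 = 24`. The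
substitutions `q ↦ g q`, `B ↦ g B gᵀ`, `g ∈ SL_2`, which do not change `X`, move the centre `l` of
the projection `S_X → P²` through all general lines of the quadric (the lines of `Q` are the
sections with the planes of one family of the quadric `det n = det n'` in `P^5`; for `l` it is `n'
= -n`). The quaternion algebra is unramified on `S_X` (on `det n = 0` the cubic equation makes the
other entry of the symbol a square). It is not 0: for suitable very general real `(A, B)` it takes
both values at the real points of `S_X`, and if it were 0 over `ℂ` it would come from the real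
numbers, since `Pic S_X = ⟨h⟩`. `S_X` is the surface `S` of (3.3): the transcendental lattice of
`X`, of discriminant 24, has a unique even overlattice of index 2. The class is `β`: the classes of
order 2 on `S` which are invariant under the monodromy group of `C_24` (which acts on `T(S)/2`
through a group containing the simple group `Ω_20^±(2)` of the quadratic form given by `β`; the
monodromy group of an open subset is the same) are 0 and `β`.

(3.6) *The cubic side, all lattices.* Let `ω² + ω + 1 = 0`. The Fermat cubic `X_1 : ∑ x_i³ = 0` has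
the form of section 1 up to factors: in the coordinates `(x₀, p₁, p₂, q₁, q₂, λ)` with respect to
`(1, 1, 1, -1, -1, -1), e₃ - e₁, e₄ - e₁, e₂ - e₆, e₂ - e₅, e₁` it is `pᵀ adj(A) p - qᵀ adj(B) q +
λ ((ω - 1) det A - (ω + 2) det B)/9`, `A = ((9 + 6 ω) p₁ - 3 (1 + ω) λ, a; a, 6 x₀ - (9 + 6 ω) p₂ +
2 (1 - ω) λ)`, `a = -3 x₀ - 3 (1 + ω) p₁ + 3 (2 + ω) p₂ + (1 + 5 ω) λ/2`, `B = (-3 q₁, b; b, -3
q₂)`, `b = 3 x₀ + (2 + ω) λ/2`. The rank of the derivative of `(A, B, g) ↦ F ∘ g` is 55 at this
point, and `S_{X_1}` has eight nodes and no other singular point. So every `X` near `X_1` on which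
`v = [T] - 2 h²` stays algebraic is of this form, with `NonDeg`, and `S_X` and its algebra are `S`
and `β` (continuity; simultaneous resolution). Let `Λ = ⟨h², v, T'⟩` be a lattice of rank 3 without
short and long roots (no `x` with `x h² = 0`, `x² = 2`, or with `x h² = x² = 1`), `0 ≤ h² T' ≤ 1`,
`0 ≤ v T' ≤ 4`. The smooth `X` with `Λ ⊆ A(X)` primitive form an irreducible divisor `Z_Λ` of
`C_24` (Nikulin). `A(X_1)` is generated by the 405 planes (rank 21, discriminant 27); for all
values of `h² T'`, `v T'` and `T'² mod 4` it contains a `T_0` of the smallest norm `≥ 3` in its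
class mod 4 (7 instead of 3 for `h² T' = 1`, `v T' = 3, 4`) and four vectors of norm 4, orthogonal
to `h², v, T_0` and to each other, such that `⟨h², v, T_0 + ∑ x_i r_i⟩` is saturated for all `x_i`
(exact computation, three programs). So by Lagrange's theorem `X_1 ∈ Z_Λ`, and *the very general
member of `Z_Λ` has the form of section 1, `S_X = S`, with the class `β`*, for every `Λ`, except
possibly if `Λ = ⟨h², v, P⟩` with a plane `P`, `v P = 3` (then `X ∈ C_14`) or `v P = 4` (then the
criterion of Hassett and Kuznetsov does not hold). (A second special cubic, with smooth `S_X`: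
`f(x) + f(y) = 0`, `f = x₀³ + x₁³ + x₂³ - 3 t x₀ x₁ x₂`, `t³ = 8/9`.)

(3.7) *The type O side.* By Mukai a general K3 surface `S'` of genus 13 consists of all
3-dimensional subspaces `P` of `V = ℂ^7` on which two alternating forms `w₀, w₁` vanish and which
satisfy `θ(P, ·) = 0` for a 4-form `θ`. Let `V^* = ⟨a₁, a₂, b₁, b₂, g₁, g₂, g₃⟩`, `w₀ = a₁ b₁ + a₂
b₂ + g₁ g₂`, `w₁ = g₃ g₁ + σ`, `σ = -∑ N_ji a_i b_j + g₂ γ'`, `θ = g₃ φ + *om` (`om` for `c = m =
0`), `φ = g₁ ∑ E_ji a_i b_j - g₂ ∑ B_ji a_i b_j - g₁ g₂ δ'`, `γ' = γ₂ a₁ + γ₃ a₂ - γ₀ b₁ - γ₁ b₂`.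
This is the general `(w₀, w₁, θ)` in suitable coordinates; `(c, m)` are coordinates in the space `θ
+ Sym²⟨w₀, w₁⟩`, and `c` is a point of the plane of lines which meet the line `l` in the quadric of
`S = M_{S'}(2, L, 6)`. (A linear map between the two planes is part of `c`: this is why `c` is any
pair of generators of `K` in the theorem.) `S_D` with its class is `S` with the obstruction class
`β`. All general pairs `(S, l)` occur: the rank of the derivative of `D ↦ (quadric, cubic, l)` is
47 = 12 + 35 (exact computation), 22 = 19 + 3 modulo coordinates.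

(3.8) *The type O side, all lattices.* Let `Λ` be as in (3.6), `a = h² T'`, `r = v T' ∈ {0, 4}`, `m
= T'²`, `m ≡ 2 - a mod 4` (these are the lattices in (B)). As in (3.4) they belong to the K3
surfaces `S'` with `Pic S' = ⟨L, R⟩`, `(L R, R²) = (0, -m)`, `(12, 8 - m)`, `(8, 3 - m)`, `(4, 3 -
m)` for `(a, r) = (0, 0)`, `(0, 4)`, `(1, 0)`, `(1, 4)` (`f = (r', R, s')`, `f h = 3 r' - s'`, `b_O
f ≡ r' mod 2`, `r' = 0` or `1`). It is a linear condition on `θ` that a given line of the variety
`{P : w₀, w₁ vanish on P}` lies in `S'`: 7 equations, and only 3 for a line through a point of a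
line which is already there. So there are `S'` with eight lines `R_1, …, R_8` which form an `E_8`
diagram, `L R_i = 1` (28 independent equations, 4 of the 32 parameters of `θ` mod `Sym²⟨w₀, w₁⟩`
remain). Over `F_101` one of them is given by `D_0`: `B = (52, 74; 41, 11)`, `N = (34, 1; 40, 36)`,
`E = (55, 21; 66, 75)`, `γ = (50, 93, 66, 37)`, `δ = (29, 67, 64, 15)`, `τ = (84, 93, 74, 94, 63,
11, 42, 36, 54, 73, 16, 77, 39, 6, 67)` (`τ_01, τ_02, …, τ_45`). `S'` and `S_{D_0}` are smooth,
`Δ(D_0) ≠ 0`, and `D ↦ (S_D, l)` is submersive at `D_0` (exact computations); so the same holds for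
a lift to characteristic 0 with the eight lines. `⟨L, R_i⟩` is saturated in `H²(S', ℤ)` (the `R_i`
generate the unimodular lattice `E_8(-1)`, its orthogonal complement in `⟨L, R_i⟩` is `⟨644⟩`, and
161 is odd). A class `e` of `E_8` has `(L e, e²) = (height of e, -(e, e))`. For each of the heights
0, 4, 8, 12 there are `e_0, r_1, r_2, r_3` in `E_8` with minors of gcd 1, `(e_0, e_0) = 6, 2, 2,
2`, the `r_i` orthogonal of norm 4 and height 0, `(e_0, r_i) = 0, 0, -2`; so `e = e_0 + ∑ x_i r_i`
is primitive with `(e, e) = (e_0, e_0) + 4 (x_1² + x_2² + x_3² - x_3)`, and every `n ≥ 0` is `x_1²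
+ x_2² + x_3² - x_3`, because `4 n + 1` is a sum of three squares. Hence *for every `Λ` in (B)
(also for `A_k`) there are data `D` near `D_0` which give the very general `(S, β, l)` of `Z_Λ`,
with `Δ(D) ≠ 0`*, with the only exception `(L R, R²) = (12, 2)`, i.e. `h² T' = 0`, `v T' = 4`, `T'²
= 6`. Then `X ∈ C_18` with `v_18 = T'`, and `v v_18 = 4` is prime to 3: `X` is rational by the
theorem of Addington, Hassett, Tschinkel and Várilly-Alvarado. (Second datum, `p = 32003`: a chain
of nine lines. Second proof for `A_k`: a datum `D_1` over `F_101` for which `S_{D_1}` has exactly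
three nodes `E_i`, `b_O E_i` even, and `f = ∑ a_i E_i` with `9 k² = a₁² + a₂² + a₃²`, `gcd(a_i) =
1`: `B = (87, 77; 39, 70)`, `N = (55, 77; 99, 47)`, `E = (95, 28; 66, 59)`, `γ = (67, 66, 0, 3)`,
`δ = (0, 90, 41, 2)`, `τ = (62, 22, 10, 42, 73, 41, 64, 33, 77, 88, 41, 26, 51, 77, 81)`.)

(3.9) *The negative answer does not depend on the type of the data.* It needs only that (i) all
general pairs `(S, l)` are among the `(S_D, l)`, (ii) `a_D` is unramified on `S_D`, (iii) `a_D` is
not 0. Let `Pic S = ⟨h⟩`. The classes of order 2 on `S` are of type C, O or E (`b h` even); the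
classes of one type form one orbit of the monodromy group (with the form `x²/2` on `H²(S, F_2)` the
stabiliser of `h` acts on `h^⊥/h` as `Sp_20(2)`; there are `2⁹(2^10 - 1)`, `2⁹(2^10 + 1)`, `2^20 -
1` of them). So the space of all `(S, β, l)` of the type of `a_D` is irreducible, and it is
dominated by the data. If the type were C, then by (3.5) the general `X ∈ C_24` would be rational,
but `F(X)` is not birational to any `S^[2]` (24 is not of the form `(2 n² + 2 n + 2)/a²`). If the
type were E: let `A(X) = ⟨3⟩ + (8, 2; 2, c)`, `c ≡ 0 mod 4`, `c ≥ 8`. Then `Pic S = ⟨h, D⟩`, `D h`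
odd, `D² ≡ 2 mod 4`, and `b_C + D` is a lift of `β` of type E; so `X` would be rational for all but
finitely many `c` (both nonempty open sets, of (3.6) and of the data, meet all but finitely many of
these divisors), but `3 T² - (h² T)²` is divisible by 4 for all `T`, so `F(X)` is birational to no
`S^[2]`. (In fact the type is O.)

(3.10) *Proof of (A) and (B).* Let `Λ` be `A_k`, or the saturation of `⟨h², v, T⟩` in (B) (it has
no short or long roots, since `X` is smooth; modulo `⟨h², v⟩` `T` is an odd multiple of a generator
`T'`, because `3 T² - (h² T)²` is `2 mod 4`). All `v T'`, `T' ∈ Λ`, are divisible by 4, so for the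
very general member of `Z_Λ` `β ≠ 0`, and `β` has a lift of type O (the criterion of Hassett and
Kuznetsov on `C_24`: `CFL/Main`, in Lean). The space of all `(S, β, l)` which belong to `Z_Λ` is
irreducible. By (3.6) and (3.8) both the `(S_X, a_X, l)` and the `(S_D, a_D, l)` with `Δ(D) ≠ 0`
contain a nonempty open subset of it (if `Λ` is not the last lattice of (3.8)). So the hypotheses
of the theorem hold for the very general `X ∈ Z_Λ`, and `X` is rational. By Kontsevich and
Tschinkel all smooth members of `Z_Λ` are rational, in particular the `X` in (A) and (B).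

(3.11) *Remarks.* The theorems used are published (Torelli theorems, Nikulin, Laza, Looijenga,
Markman, Verbitsky, Addington, Mukai, Kontsevich and Tschinkel); the identification of the surfaces
and classes of section 1 with the twisted K3 surfaces is ours. Computer checks: `#X(F_q) = 1 + q² +
q⁴ + q #S_X(F_q)` for all smooth samples, `q ≤ 49`; `#S_D(F_p) = #S'(F_p)` for all smooth samples,
`p = 3, 5, 7` (two independent programs); both algebras unramified at thousands of `p`-adic points.
By the theorem `Comparison` (`Pool/Agent`, formalised) the criterion of Hassett and Kuznetsov is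
equivalent to `F(X) ~ S^[2]` if `rk A(X) ≥ 4`, so a counterexample of this kind must have `rk A(X)
≤ 3`.

(3.12) *Known.* Rational cubic fourfolds: `C_14` (Beauville, Donagi; Bolognesi, Russo, Staglianò),
`C_26`, `C_38` (Russo, Staglianò), `C_42` (Russo, Staglianò; Farkas, Verra), countably many
divisors of `C_8` (Hassett), `C_18` (Addington, Hassett, Tschinkel, Várilly-Alvarado), `C_20`, and
of `C_24` those with `β = 0`, where the fibration has a section (Hassett, Hartlieb, *Cubic
fourfolds of discriminant 24 and rationality*).
-/

set_option autoImplicit false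

namespace Pool.Agent.Results.MP_4d0966_ag.TwistedK3

open MvPolynomial Pool.Agent.TK

/-- There is a nonzero polynomial `Δ` in the coefficients of type O data with the following
property. A cubic fourfold (in `C_24`) which has the same twisted K3 surface over the plane as a
type O datum `D` with `Δ(D) ≠ 0` is rational. There are smooth cubic fourfolds with a datum `D` of
this kind. -/
theorem result : ∃ Δ : MvPolynomial Idx ℂ, Δ ≠ 0 ∧
    (∀ (X : Cub ℂ) (D : Dat ℂ) (c : Fin 2 → K), X.NonDeg → Irreducible X.F →
      eval D.coord Δ ≠ 0 → IntermediateField.adjoin ℂ (Set.range c) = ⊤ →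
      SameTwistedK3 X D c → P28.Rational X.F) ∧
    ∃ (X : Cub ℂ) (D : Dat ℂ) (c : Fin 2 → K), P28.PSmooth X.F ∧ X.NonDeg ∧ Irreducible X.F ∧
      eval D.coord Δ ≠ 0 ∧ IntermediateField.adjoin ℂ (Set.range c) = ⊤ ∧ SameTwistedK3 X D c := by
  obtain ⟨Δ, h, X, D, c, M, _, _, n, n', m, hs, hn, hi, hD, hc, hM, hX, hd, hq⟩ :=
    GSV.Q4.example4
  refine ⟨Δ, ?_, ?_, X, D, c, hs, hn, hi, hD, hc, M, _, _, n, n', m, hM, hX, hd, hq⟩
  · rintro rfl
    simp at hD
  · rintro X D c hn hi hD hc ⟨M, _, _, n, n', m, hM, hX, hd, hq⟩
    exact h X D c hn hi hD hc M n n' m hM hX hd hq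

end Pool.Agent.Results.MP_4d0966_ag.TwistedK3
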